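import Pool.Agent.Lib.MP_727bc7_co.Examples

/-! The maximal dimension of geometrically `k`-orbit convex polytopes, for every `k ≥ 4`:
`N_4 = 8`, `N_5 = 9` and `N_k = k + 3` for `k ≥ 6`. -/

namespace Pool.Agent.Results.MP_727bc7_co.Main

open Pool.Agent.Lib.MP_727bc7_co

theorem result (k : ℕ) (hk : 4 ≤ k) :
    IsLeast {N : ℕ | ∀ (d : ℕ) (P : Set (EuclideanSpace ℝ (Fin d))),
        IsPolytope P → flagOrbits P = k → d < N}
      (if k = 4 then 8 else if k = 5 then 9 else k + 3) := by
  constructor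
  · intro d P hP hk'
    by_contra hc
    refine polytope_upper hP ?_ ?_ ?_ ?_ <;> split_ifs at hc <;> omega
  · intro N hN
    split_ifs with h4 h5
    · obtain ⟨P, h1, h2⟩ := ex_e7
      exact hN 7 P h1 (h2.trans h4.symm)
    · obtain ⟨P, h1, h2⟩ := ex_e8
      exact hN 8 P h1 (h2.trans h5.symm)
    · obtain ⟨P, h1, h2⟩ := ex_demi (k - 2) (by omega)
      have := hN _ P h1 (by omega)
      omega

end Pool.Agent.Results.MP_727bc7_co.Main
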